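import Mathlib

set_option autoImplicit false

namespace Pool.Agent.Results.MP_37207a_lc.Cubes

open Set Cardinal FirstOrder IntermediateField

lemma sqrt_ext (K : Subfield ℝ) {r : ℝ} (h1 : r * r ∈ K) (h2 : r ∉ K) :
    ∃ L : Subfield ℝ, K ≤ L ∧ r ∈ L ∧ ∀ x ∈ L, x ^ 3 ∈ K → x ∈ K := by
  let L : Subfield ℝ :=
    { carrier := {x | ∃ u ∈ K, ∃ v ∈ K, x = u + v * r}
      zero_mem' := ⟨0, K.zero_mem, 0, K.zero_mem, by simp⟩
      one_mem' := ⟨1, K.one_mem, 0, K.zero_mem, by simp⟩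
      add_mem' := by
        rintro _ _ ⟨u, hu, v, hv, rfl⟩ ⟨u', hu', v', hv', rfl⟩
        exact ⟨_, K.add_mem hu hu', _, K.add_mem hv hv', by ring⟩
      neg_mem' := by
        rintro _ ⟨u, hu, v, hv, rfl⟩
        exact ⟨_, K.neg_mem hu, _, K.neg_mem hv, by ring⟩
      mul_mem' := by
        rintro _ _ ⟨u, hu, v, hv, rfl⟩ ⟨u', hu', v', hv', rfl⟩
        exact ⟨_, K.add_mem (K.mul_mem hu hu') (K.mul_mem (K.mul_mem hv hv') h1), _,
          K.add_mem (K.mul_mem hu hv') (K.mul_mem hv hu'), by ring⟩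
      inv_mem' := by
        rintro _ ⟨u, hu, v, hv, rfl⟩
        have hd := K.sub_mem (K.mul_mem hu hu) (K.mul_mem (K.mul_mem hv hv) h1)
        refine ⟨_, K.div_mem hu hd, _, K.div_mem (K.neg_mem hv) hd, ?_⟩
        by_cases h0 : v = 0
        · simp [h0]
        have a1 : u + v * r ≠ 0 := fun h => h2 (by
          rw [show r = -u / v by field_simp; linarith]; exact K.div_mem (K.neg_mem hu) hv)
        have a2 : u - v * r ≠ 0 := fun h => h2 (by
          rw [show r = u / v by field_simp; linarith]; exact K.div_mem hu hv)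
        rw [show u * u - v * v * (r * r) = (u + v * r) * (u - v * r) by ring]
        field_simp; ring }
  refine ⟨L, fun x hx => ⟨x, hx, 0, K.zero_mem, by simp⟩, ⟨0, K.zero_mem, 1, K.one_mem, by simp⟩, ?_⟩
  rintro x ⟨u, hu, v, hv, e⟩ h3
  obtain ⟨p, q, hp, hq, e2⟩ : ∃ p q, p ∈ K ∧ q ∈ K ∧ x * x = p * x + q :=
    ⟨u + u, v * v * (r * r) - u * u, K.add_mem hu hu,
      K.sub_mem (K.mul_mem (K.mul_mem hv hv) h1) (K.mul_mem hu hu), by rw [e]; ring⟩
  by_cases h0 : p * p + q = 0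
  · have : x = 0 := by nlinarith [sq_nonneg (x - p), sq_nonneg p, sq_nonneg x]
    exact this ▸ K.zero_mem
  · rw [show x = (x ^ 3 - p * q) / (p * p + q) by
      rw [eq_div_iff h0]; linear_combination (-x - p) * e2]
    exact K.div_mem (K.sub_mem h3 (K.mul_mem hp hq)) (K.add_mem (K.mul_mem hp hp) hq)

lemma exists_field {ι : Type} {α : ι → ℝ} (h : AlgebraicIndependent ℚ α) (J : Set ι) :
    ∃ K : Subfield ℝ, (∀ r : ℝ, r * r ∈ K → r ∈ K) ∧ (∀ i, α i ^ 3 ∈ K) ∧ ∀ i, α i ∈ K ↔ i ∈ J := by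
  let K0 : Subfield ℝ := Subfield.closure (α '' J ∪ range fun i => α i ^ 3)
  have h0 : ∀ i ∉ J, α i ∉ K0 := fun i hi hc => by
    let E := IntermediateField.adjoin ℚ (α '' {i}ᶜ)
    have hE : ∀ j, j ≠ i → α j ∈ E⟮α i ^ 3⟯ := fun j hj =>
      E⟮α i ^ 3⟯.algebraMap_mem ⟨α j, subset_adjoin _ _ ⟨j, hj, rfl⟩⟩
    have h1 : K0 ≤ E⟮α i ^ 3⟯.toSubfield := Subfield.closure_le.2 (by
      rintro _ (⟨j, hj, rfl⟩ | ⟨j, rfl⟩)
      · exact hE j (by rintro rfl; exact hi hj)
      · by_cases hj : j = i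
        · exact hj ▸ mem_adjoin_simple_self E _
        · exact pow_mem (hE j hj) 3)
    have h2 : E⟮α i ^ 1⟯ = E⟮α i ^ 3⟯ := by
      rw [pow_one]
      exact le_antisymm (adjoin_simple_le_iff.2 (h1 hc))
        (adjoin_simple_le_iff.2 (pow_mem (mem_adjoin_simple_self E _) 3))
    exact h.transcendental_adjoin (s := {i}ᶜ) (i := i) (by simp)
      (isAlgebraic_adjoin_iff.1 (Field.isAlgebraic_of_adjoin_eq_adjoin E ℝ (by norm_num) h2))
  obtain ⟨K, h1, h2⟩ := zorn_le_nonempty₀ {K : Subfield ℝ | ∀ i ∉ J, α i ∉ K}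
    (fun c hc hch y hy => ⟨sSup c, fun i hi hm => by
      obtain ⟨K, h1, h2⟩ := (Subfield.mem_sSup_of_directedOn ⟨y, hy⟩ hch.directedOn).1 hm
      exact hc h1 i hi h2, fun _ => le_sSup⟩) K0 h0
  have h3 : ∀ i, α i ^ 3 ∈ K := fun i => h1 (Subfield.subset_closure (Or.inr ⟨i, rfl⟩))
  refine ⟨K, fun r hr => by_contra fun hc => ?_, h3, fun i => ⟨fun hi => by_contra fun hc =>
    h2.prop i hc hi, fun hi => h1 (Subfield.subset_closure (Or.inl ⟨i, hi, rfl⟩))⟩⟩
  obtain ⟨L, a1, a2, a3⟩ := sqrt_ext K hr hc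
  exact hc (h2.le_of_ge (fun i hi hm => h2.prop i hi (a3 _ hm (h3 i))) a1 a2)

lemma lt_of_sq {F : Type} [Field F] [LinearOrder F] [IsStrictOrderedRing F] {x y z : F}
    (h : y - x = z * z) (hz : z ≠ 0) : x < y := sub_pos.1 (h ▸ mul_self_pos.2 hz)

theorem result : ∃ K : Subfield ℝ,
    (∀ o : LinearOrder K, @IsStrictOrderedRing K _ o.toPartialOrder →
      ∀ x : K, ∃ n : ℕ, o.lt x n) ∧
    ∃ D : Set K, (letI := Ring.compatibleRingOfRing K
      (univ : Set K).Definable₁ Language.ring D) ∧ ¬ @MeasurableSet K (borel K) D := by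
  obtain ⟨s, hs⟩ := exists_isTranscendenceBasis ℚ ℝ
  have hc : 𝔠 ≤ #s := by
    rcases isEmpty_or_nonempty s with h | h
    · have := hs.isEmpty_iff_isAlgebraic.1 h
      have := Algebra.IsAlgebraic.cardinalMk_le_max ℚ ℝ
      simp [mk_real, aleph0_lt_continuum.not_ge] at this
    · have := hs.lift_cardinalMk_eq_max_lift
      simp only [lift_id, mk_real, Cardinal.mkRat] at this
      simpa [aleph0_lt_continuum.not_ge] using this.le
  choose K h1 h2 h3 using exists_field hs.1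
  by_contra hn
  push Not at hn
  have key : ∀ J, ∃ B : Set ℝ, MeasurableSet B ∧ ∀ i : s, i.1 ^ 3 ∈ B ↔ i ∈ J := fun J => by
    have := hn (K J) (fun o ho x => ?_) {x | ∃ y, y * y * y = x} ?_
    · have e : (borel ℝ).comap (Subtype.val : K J → ℝ) = borel (K J) := borel_comap.symm
      rw [← e] at this
      obtain ⟨B, a1, a2⟩ := this
      refine ⟨B, by rwa [← BorelSpace.measurable_eq] at a1, fun i => ?_⟩
      have := Set.ext_iff.1 a2 ⟨_, h2 J i⟩
      refine this.trans ⟨fun ⟨y, hy⟩ => (h3 J i).1 ?_,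
        fun hi => ⟨⟨_, (h3 J i).2 hi⟩, Subtype.ext (pow_three' _).symm⟩⟩
      have : y.1 ^ 3 = i.1 ^ 3 := by rw [pow_three']; exact congrArg Subtype.val hy
      exact (Odd.pow_injective (by decide) this) ▸ y.2
    · obtain ⟨n, hn⟩ := exists_nat_gt x.1
      have a1 := Real.mul_self_sqrt (sub_pos.2 hn).le
      have a2 : √(n - x.1) ∈ K J := h1 J _ (by rw [a1]; exact ((n : K J) - x).2)
      have a3 : (n : K J) - x = ⟨_, a2⟩ * ⟨_, a2⟩ := Subtype.ext a1.symm
      exact ⟨n, @lt_of_sq _ _ o ho _ _ _ a3 fun h =>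
        (Real.sqrt_pos.2 (sub_pos.2 hn)).ne' (congrArg Subtype.val h)⟩
    · let _ := Ring.compatibleRingOfRing (K J)
      refine Set.Definable.mono (A := ∅) (Set.empty_definable_iff.2 ⟨Language.BoundedFormula.ex
        (Language.Term.bdEqual (.var (.inr 0) * .var (.inr 0) * .var (.inr 0)) (.var (.inl 0))),
        ?_⟩) (empty_subset _)
      ext v
      simp [Language.Formula.Realize, Fin.snoc]
  choose B b1 b2 using key
  have c1 : #(Set s) ≤ #{t : Set ℝ | MeasurableSet t} :=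
    mk_le_of_injective (f := fun J => ⟨B J, b1 J⟩) fun J J' h => Set.ext fun i => by
      rw [← b2, ← b2, show B J = B J' from congrArg Subtype.val h]
  have c2 : #{t : Set ℝ | MeasurableSet t} ≤ 𝔠 := by
    rw [BorelSpace.measurable_eq (α := ℝ), Real.borel_eq_generateFrom_Iio_rat]
    exact MeasurableSpace.cardinal_measurableSet_le_continuum
      ((le_aleph0_iff_set_countable.2 (countable_iUnion fun _ => countable_singleton _)).trans
        aleph0_le_continuum)
  rw [mk_set] at c1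
  exact (cantor #s).not_ge (c1.trans (c2.trans hc))

end Pool.Agent.Results.MP_37207a_lc.Cubes
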